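import Pool.Agent.W153.EO.Count
import Pool.Agent.W153.EO.Sep
import Pool.Agent.H430R3.KST

set_option autoImplicit false

namespace Pool.Agent.V11205.EOP

open Pool.Agent.W153.EO Filter Topology

/-- The numerical estimate. -/
lemma estimate_pow (c : ℕ) (C : ℝ) (b : ℕ) (hb : 1 ≤ b)
    (hlarge : 4 * |C| * (5 * (b : ℝ) ^ 2) ^ c < 2 ^ b) (n : ℕ)
    (hn : n = 2 ^ b * (b * 2 ^ b + 2 ^ b) ^ b + (2 * (b * 2 ^ b)) ^ b) :
    C * (n : ℝ) * Real.log (n : ℝ) ^ c < (((2 * (b * 2 ^ b)) ^ b * 2 ^ b : ℕ) : ℝ) := by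
  have hb' : (0 : ℝ) < b := by exact_mod_cast hb
  have hb1 : (1 : ℝ) ≤ b := by exact_mod_cast hb
  set X : ℝ := ((b : ℝ) * 2 ^ b) ^ b with hX
  have hXpos : 0 < X := by positivity
  have h2b : (1 : ℝ) ≤ 2 ^ b := one_le_pow₀ (by norm_num)
  have hnX : (n : ℝ) ≤ 4 * 2 ^ b * X := by
    rw [hn]
    push_cast
    have e1 : ((b : ℝ) * 2 ^ b + 2 ^ b) ^ b = (2 ^ b) ^ b * ((b : ℝ) + 1) ^ b := by
      rw [← mul_pow]
      congr 1
      ring
    have e2 : (2 * ((b : ℝ) * 2 ^ b)) ^ b = 2 ^ b * X := by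
      rw [mul_pow, hX]
    rw [e1, e2]
    have e3 : (2 ^ b) ^ b * ((b : ℝ) + 1) ^ b ≤ 3 * X := by
      calc ((2 : ℝ) ^ b) ^ b * ((b : ℝ) + 1) ^ b ≤ (2 ^ b) ^ b * (3 * (b : ℝ) ^ b) :=
            mul_le_mul_of_nonneg_left (pow_ratio b hb) (by positivity)
        _ = 3 * X := by
            rw [hX, mul_pow]
            ring
    calc (2 : ℝ) ^ b * ((2 ^ b) ^ b * ((b : ℝ) + 1) ^ b) + 2 ^ b * X
        ≤ 2 ^ b * (3 * X) + 2 ^ b * X := by
          have := mul_le_mul_of_nonneg_left e3 (by positivity : (0 : ℝ) ≤ 2 ^ b)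
          linarith
      _ = 4 * 2 ^ b * X := by ring
  have hnpos : 0 < n := by
    rw [hn]
    have : 0 < (2 * (b * 2 ^ b)) ^ b := by positivity
    omega
  have hn1 : (1 : ℝ) ≤ n := by exact_mod_cast hnpos
  have hlog0 : 0 ≤ Real.log n := Real.log_nonneg hn1
  have hlog2 : Real.log 2 ≤ 1 := by
    have := Real.log_two_lt_d9
    linarith
  have hlog2' : 0 ≤ Real.log 2 := Real.log_nonneg (by norm_num)
  have hlog : Real.log n ≤ 5 * (b : ℝ) ^ 2 := by
    calc Real.log n ≤ Real.log (4 * 2 ^ b * X) := Real.log_le_log (by linarith) hnX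
      _ = 2 * Real.log 2 + b * Real.log 2 + b * (Real.log b + b * Real.log 2) := by
          rw [Real.log_mul (by positivity) (by positivity), Real.log_mul (by positivity) (by positivity),
            Real.log_pow, hX, Real.log_pow, Real.log_mul (by positivity) (by positivity), Real.log_pow,
            show (4 : ℝ) = 2 ^ 2 by norm_num, Real.log_pow]
          push_cast
          ring
      _ ≤ 2 * 1 + b * 1 + b * (b + b * 1) := by
          have h1 := log_nat_le b hb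
          have h2 : (b : ℝ) * Real.log 2 ≤ b * 1 := mul_le_mul_of_nonneg_left hlog2 hb'.le
          have h3 : (b : ℝ) * (Real.log b + b * Real.log 2) ≤ b * (b + b * 1) :=
            mul_le_mul_of_nonneg_left (by linarith) hb'.le
          linarith
      _ ≤ 5 * (b : ℝ) ^ 2 := by nlinarith
  have hE : (((2 * (b * 2 ^ b)) ^ b * 2 ^ b : ℕ) : ℝ) = 2 ^ b * (2 ^ b * X) := by
    push_cast
    rw [mul_pow, hX]
    ring
  rw [hE]
  calc C * (n : ℝ) * Real.log n ^ c ≤ |C| * n * Real.log n ^ c := by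
        apply mul_le_mul_of_nonneg_right _ (pow_nonneg hlog0 c)
        exact mul_le_mul_of_nonneg_right (le_abs_self C) (by positivity)
    _ ≤ |C| * (4 * 2 ^ b * X) * (5 * (b : ℝ) ^ 2) ^ c := by
        apply mul_le_mul _ (pow_le_pow_left₀ hlog0 hlog c) (pow_nonneg hlog0 c) (by positivity)
        exact mul_le_mul_of_nonneg_left hnX (abs_nonneg C)
    _ = (4 * |C| * (5 * (b : ℝ) ^ 2) ^ c) * (2 ^ b * X) := by ring
    _ < 2 ^ b * (2 ^ b * X) := by
        apply mul_lt_mul_of_pos_right hlarge (by positivity)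

lemma exists_b_pow (c : ℕ) (C : ℝ) : ∃ b : ℕ, 1 ≤ b ∧ 4 * |C| * (5 * (b : ℝ) ^ 2) ^ c < 2 ^ b := by
  have h1 : Tendsto (fun b : ℕ => (b : ℝ) ^ (2 * c) / 2 ^ b) atTop (𝓝 0) :=
    tendsto_pow_const_div_const_pow_of_one_lt (2 * c) (by norm_num)
  have h2 := h1.const_mul (4 * |C| * 5 ^ c)
  rw [mul_zero] at h2
  have h3 : ∀ᶠ b : ℕ in atTop, 4 * |C| * 5 ^ c * ((b : ℝ) ^ (2 * c) / 2 ^ b) < 1 :=
    h2.eventually_lt_const (by norm_num)
  obtain ⟨b, hb⟩ := (h3.and (eventually_ge_atTop 1)).exists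
  refine ⟨b, hb.2, ?_⟩
  have h4 := hb.1
  rw [← mul_div_assoc, div_lt_one (by positivity)] at h4
  calc 4 * |C| * (5 * (b : ℝ) ^ 2) ^ c = 4 * |C| * 5 ^ c * (b : ℝ) ^ (2 * c) := by
        rw [mul_pow, ← pow_mul]; ring
    _ < 2 ^ b := h4

/-- The lower bound: no polylogarithmic factor suffices. -/
theorem lower_pow (c : ℕ) (C : ℝ) : ∃ n : ℕ, 2 ≤ n ∧ ∃ G : SimpleGraph (Fin n),
    ∃ g : Sym2 (Fin n) → ℕ,
    Set.InjOn g G.edgeSet ∧ ¬ Cont G g ∧ C * (n : ℝ) * Real.log (n : ℝ) ^ c <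
      (G.edgeSet.ncard : ℝ) := by
  obtain ⟨b, hb1, hb⟩ := exists_b_pow c C
  obtain ⟨G, g, hg, hC, hcard⟩ := transport (host b (2 ^ b) (b * 2 ^ b)) (ord b (2 ^ b) (b * 2 ^ b))
    (ord_injOn _ _ _) (host_avoids _ _ _)
  have hn := host_card b (2 ^ b) (b * 2 ^ b)
  refine ⟨_, ?_, G, g, hg, hC, ?_⟩
  · rw [hn]
    have h1 : b < 2 ^ b := Nat.lt_two_pow_self
    have h2 : 2 ^ b ≤ (2 * (b * 2 ^ b)) ^ b := by
      apply Nat.pow_le_pow_left
      have : 1 ≤ b * 2 ^ b := Nat.one_le_iff_ne_zero.mpr (by positivity)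
      omega
    omega
  · refine lt_of_lt_of_le (estimate_pow c C b hb1 hb _ hn) ?_
    rw [hcard]
    exact_mod_cast host_edges b (2 ^ b) (b * 2 ^ b)

/-- Dense graphs contain the pattern in every edge-ordering. -/
theorem dense (ε : ℝ) (hε : 0 < ε) : ∃ N : ℕ, ∀ n : ℕ, N ≤ n →
    ∀ (G : SimpleGraph (Fin n)) (g : Sym2 (Fin n) → ℕ), Set.InjOn g G.edgeSet → ¬ Cont G g →
      (G.edgeSet.ncard : ℝ) ≤ ε * (n : ℝ) ^ 2 := by
  classical
  obtain ⟨A, B, hAB⟩ := exists_host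
  obtain ⟨q, hq⟩ := exists_nat_gt (1 / ε)
  have hq1 : 1 ≤ q := by
    have : (0 : ℝ) < q := lt_trans (by positivity) hq
    exact_mod_cast this
  obtain ⟨R0, hR0⟩ := H430R3.weak_kst (A + B + 1) q (by omega) hq1
  refine ⟨R0, fun n hn G g hg hC => ?_⟩
  by_contra hcon
  push Not at hcon
  apply hC
  have hsum : ∑ x : Fin n, ((Finset.univ : Finset (Fin n)).filter fun y => G.Adj x y).card =
      2 * G.edgeSet.ncard := by
    have h1 := G.sum_degrees_eq_twice_card_edges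
    have h2 : G.edgeFinset.card = G.edgeSet.ncard := by
      rw [← SimpleGraph.coe_edgeFinset, Set.ncard_coe_finset]
    rw [h2] at h1
    rw [← h1]
    apply Finset.sum_congr rfl
    intro x _
    rw [← SimpleGraph.card_neighborFinset_eq_degree, SimpleGraph.neighborFinset_eq_filter]
  have hdense : n * n < q * ∑ x ∈ (Finset.univ : Finset (Fin n)),
      ((Finset.univ : Finset (Fin n)).filter fun y => G.Adj x y).card := by
    rw [hsum]
    have h3 : (n : ℝ) * n < q * (2 * (G.edgeSet.ncard : ℝ)) := by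
      have h4 : 1 < q * ε := by
        rw [div_lt_iff₀ hε] at hq
        exact hq
      have hq0 : (0 : ℝ) < q := by exact_mod_cast hq1
      have h5 : q * (ε * (n : ℝ) ^ 2) < q * (G.edgeSet.ncard : ℝ) :=
        mul_lt_mul_of_pos_left hcon hq0
      have h6 : (n : ℝ) ^ 2 ≤ q * ε * (n : ℝ) ^ 2 := by
        nlinarith [sq_nonneg (n : ℝ)]
      have h7 : (0 : ℝ) ≤ q * (G.edgeSet.ncard : ℝ) := by positivity
      nlinarith
    exact_mod_cast h3
  obtain ⟨X', _, Y', _, hX, hY, hXY⟩ := hR0 Finset.univ Finset.univ (fun x y => G.Adj x y) n hn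
    (by simp) (by simp) hdense
  have eX : A ≤ X'.card := by omega
  have eY : B ≤ Y'.card := by omega
  let φ1 : Fin A → Fin n := fun i => (X'.equivFin.symm (Fin.castLE eX i) : X')
  let φ2 : Fin B → Fin n := fun i => (Y'.equivFin.symm (Fin.castLE eY i) : Y')
  have hφ1 : Function.Injective φ1 := by
    intro i j h
    have := X'.equivFin.symm.injective (Subtype.ext h)
    exact Fin.castLE_injective eX this
  have hφ2 : Function.Injective φ2 := by
    intro i j h
    have := Y'.equivFin.symm.injective (Subtype.ext h)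
    exact Fin.castLE_injective eY this
  have m1 : ∀ i, φ1 i ∈ X' := fun i => (X'.equivFin.symm (Fin.castLE eX i)).2
  have m2 : ∀ i, φ2 i ∈ Y' := fun i => (Y'.equivFin.symm (Fin.castLE eY i)).2
  have hadj : ∀ i j, G.Adj (φ1 i) (φ2 j) := fun i j => hXY _ (m1 i) _ (m2 j)
  let φ : Fin A ⊕ Fin B → Fin n := Sum.elim φ1 φ2
  have hφ : Function.Injective φ := by
    rintro (i | i) (j | j) h
    · exact congrArg Sum.inl (hφ1 h)
    · exact absurd h (hadj i j).ne
    · exact absurd h.symm (hadj j i).ne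
    · exact congrArg Sum.inr (hφ2 h)
  have hφadj : ∀ u v, (completeBipartiteGraph (Fin A) (Fin B)).Adj u v → G.Adj (φ u) (φ v) := by
    rintro (i | i) (j | j) h
    · simp at h
    · exact hadj i j
    · exact (hadj j i).symm
    · simp at h
  obtain ⟨ψ, h1, h2, h3⟩ := hAB (fun e => g (Sym2.map φ e)) (by
    intro e he e' he' h
    have k : ∀ e ∈ (completeBipartiteGraph (Fin A) (Fin B)).edgeSet, Sym2.map φ e ∈ G.edgeSet := by
      intro e he
      induction e using Sym2.ind with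
      | _ a b => exact hφadj a b he
    exact Sym2.map.injective hφ (hg (k e he) (k e' he') h))
  refine ⟨φ ∘ ψ, hφ.comp h1, fun u v huv => hφadj _ _ (h2 u v huv), ?_⟩
  intro e₁ he₁ e₂ he₂ hlt
  have := h3 e₁ he₁ e₂ he₂ hlt
  simpa only [Sym2.map_map] using this

end Pool.Agent.V11205.EOP
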